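import Mathlib

/-!
Definitions for the k-dimensional Weisfeiler-Leman method on a finite simple graph `G` with a
vertex colouring `c` (all edges carry one and the same colour), following the problem file.
-/

set_option autoImplicit false

namespace Pool.Agent.Lib.MP_493565_co

/-- The type of the colours that round `t` of the `k`-dim WL method gives to `k`-tuples, for
vertex colours in `C`.  Round `0`: equality pattern, adjacency pattern, vertex colours.
Round `t + 1`: the previous colour and a multiset of `k`-tuples of previous colours. -/
def Colour (k : ℕ) (C : Type) : ℕ → Type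
  | 0 => (Fin k → Fin k → Prop) × (Fin k → Fin k → Prop) × (Fin k → C)
  | t + 1 => Colour k C t × Multiset (Fin k → Colour k C t)

/-- The colour `WL^t_k(S)` of the `k`-tuple `S`. -/
def wl {V C : Type} [Fintype V] (k : ℕ) (G : SimpleGraph V) (c : V → C) :
    (t : ℕ) → (Fin k → V) → Colour k C t
  | 0, S => (fun i j => S i = S j, fun i j => G.Adj (S i) (S j), fun i => c (S i))
  | t + 1, S => (wl k G c t S,
      Multiset.map (fun x : V => fun i : Fin k => wl k G c t (Function.update S i x))
        Finset.univ.val)

/-- Round `t` is stable: one more round splits no colour class of `k`-tuples. -/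
def IsStableRound {V C : Type} [Fintype V] (k : ℕ) (G : SimpleGraph V) (c : V → C) (t : ℕ) :
    Prop :=
  ∀ S S' : Fin k → V, wl k G c t S = wl k G c t S' → wl k G c (t + 1) S = wl k G c (t + 1) S'

/-- The first stable round. -/
noncomputable def stableRound {V C : Type} [Fintype V] (k : ℕ) (G : SimpleGraph V) (c : V → C) :
    ℕ :=
  sInf {t : ℕ | IsStableRound k G c t}

/-- The stable colouring `WL_k` of `k`-tuples. -/
noncomputable def stableWL {V C : Type} [Fintype V] (k : ℕ) (G : SimpleGraph V) (c : V → C) :
    (Fin k → V) → Colour k C (stableRound k G c) :=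
  wl k G c (stableRound k G c)

/-- Colouring downward: from a colouring `χ` of `(t+1)`-tuples, the colouring of `t`-tuples
`x ↦ {{ χ (x, y) : y ∈ V }}`. -/
def lower {V α : Type} [Fintype V] {t : ℕ} (χ : (Fin (t + 1) → V) → α) :
    (Fin t → V) → Multiset α :=
  fun x => Multiset.map (fun y : V => χ (Fin.snoc (α := fun _ => V) x y)) Finset.univ.val

/-- `u` and `v` receive the same vertex colour from the colouring `χ` of `k`-tuples, colouring
downward `k - 1` times until `1`-tuples are reached. -/
def SameVertexColour {V : Type} [Fintype V] :
    (k : ℕ) → {α : Type} → ((Fin k → V) → α) → V → V → Prop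
  | 0, _, _, _, _ => True
  | 1, _, χ, u, v => χ (fun _ => u) = χ (fun _ => v)
  | k + 2, _, χ, u, v => SameVertexColour (k + 1) (lower χ) u v

/-- `u` and `v` lie in the same orbit of the group of colour-preserving automorphisms. -/
def SameOrbit {V C : Type} (G : SimpleGraph V) (c : V → C) (u v : V) : Prop :=
  ∃ φ : G ≃g G, (∀ x, c (φ x) = c x) ∧ φ u = v

/-- The `k`-dim WL method refines the coloured graph `(G, c)` to its orbits. -/
def RefinesToOrbits {V C : Type} [Fintype V] (k : ℕ) (G : SimpleGraph V) (c : V → C) : Prop :=
  ∀ u v : V, SameVertexColour k (stableWL k G c) u v ↔ SameOrbit G c u v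

open Classical in
/-- The colouring of the vertex-stabilised graph `G_v`: `v` gets the new colour `none`, every
other vertex `x` keeps its colour, as `some (c x)`. -/
noncomputable def individualise {V C : Type} (c : V → C) (v : V) : V → Option C :=
  fun x => if x = v then none else some (c x)

end Pool.Agent.Lib.MP_493565_co
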