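import Mathlib
import Pool.Agent.Lib.MP_493565_co.Defs

-- part Pool.Agent.Lib.MP_493565_co.General
section

set_option autoImplicit false

namespace Pool.Agent.Lib.MP_493565_co

open Finset

/-- A back-and-forth system for the bijective pebble game. -/
structure BackForth {V C : Type} [DecidableEq V] (k : ℕ) (G : SimpleGraph V) (c : V → C)
    (Good : (V → V) → Finset V → Prop) : Prop where
  mono : ∀ f A B, Good f A → B ⊆ A → Good f B
  eq_iff : ∀ f A, Good f A → ∀ x ∈ A, ∀ y ∈ A, (f x = f y ↔ x = y)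
  adj_iff : ∀ f A, Good f A → ∀ x ∈ A, ∀ y ∈ A, (G.Adj (f x) (f y) ↔ G.Adj x y)
  col : ∀ f A, Good f A → ∀ x ∈ A, c (f x) = c x
  ext : ∀ f A, Good f A → A.card ≤ k → ∃ φ : V ≃ V, ∀ x, ∃ g, Good g (insert x A) ∧
    (∀ a ∈ A, g a = f a) ∧ g x = φ x

section
variable {V C : Type} [Fintype V] [DecidableEq V] {k : ℕ} {G : SimpleGraph V} {c : V → C}
  {Good : (V → V) → Finset V → Prop}

omit [Fintype V] in
theorem card_image_le_of_tuple {j : ℕ} (S : Fin j → V) : (univ.image S).card ≤ j := by
  simpa using (Finset.card_image_le (s := (univ : Finset (Fin j))) (f := S))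

omit [DecidableEq V] in
theorem map_univ_equiv {α : Type} (φ : V ≃ V) (F : V → α) :
    Multiset.map F univ.val = Multiset.map (fun x => F (φ x)) univ.val := by
  conv_lhs => rw [← Multiset.map_univ_val_equiv φ]
  rw [Multiset.map_map]
  rfl

theorem wl_invariant (h : BackForth k G c Good) (t : ℕ) :
    ∀ (f : V → V) (S : Fin k → V), Good f (univ.image S) →
      wl k G c t S = wl k G c t (f ∘ S) := by
  induction t with
  | zero =>
    intro f S hf
    have hm : ∀ i, S i ∈ univ.image S := fun i => mem_image_of_mem _ (mem_univ i)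
    simp only [wl, Function.comp_apply]
    refine Prod.ext ?_ (Prod.ext ?_ ?_)
    · funext i j
      exact propext (h.eq_iff f _ hf _ (hm i) _ (hm j)).symm
    · funext i j
      exact propext (h.adj_iff f _ hf _ (hm i) _ (hm j)).symm
    · funext i
      exact (h.col f _ hf _ (hm i)).symm
  | succ t ih =>
    intro f S hf
    obtain ⟨φ, hφ⟩ := h.ext f _ hf (card_image_le_of_tuple S)
    simp only [wl]
    refine Prod.ext (ih f S hf) ?_
    show Multiset.map _ _ = Multiset.map _ _
    rw [map_univ_equiv φ (fun x : V => fun i : Fin k =>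
      wl k G c t (Function.update (f ∘ S) i x))]
    refine Multiset.map_congr rfl fun x _ => ?_
    funext i
    obtain ⟨g, hg, hga, hgx⟩ := hφ x
    have hsub : univ.image (Function.update S i x) ⊆ insert x (univ.image S) := by
      intro y hy
      obtain ⟨j, -, rfl⟩ := mem_image.1 hy
      by_cases hj : j = i
      · subst hj; simp
      · rw [Function.update_of_ne hj]
        exact mem_insert_of_mem (mem_image_of_mem _ (mem_univ j))
    rw [ih g _ (h.mono g _ _ hg hsub)]
    congr 1
    funext j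
    by_cases hj : j = i
    · subst hj; simp [hgx]
    · simp only [Function.comp_apply, Function.update_of_ne hj]
      exact hga _ (mem_image_of_mem _ (mem_univ j))

theorem lower_invariant (h : BackForth k G c Good) {α : Type} {t : ℕ} (ht : t ≤ k)
    (χ : (Fin (t + 1) → V) → α)
    (hχ : ∀ (f : V → V) (S : Fin (t + 1) → V), Good f (univ.image S) → χ S = χ (f ∘ S)) :
    ∀ (f : V → V) (S : Fin t → V), Good f (univ.image S) → lower χ S = lower χ (f ∘ S) := by
  intro f S hf
  obtain ⟨φ, hφ⟩ := h.ext f _ hf ((card_image_le_of_tuple S).trans ht)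
  unfold lower
  rw [map_univ_equiv φ (fun y : V => χ (Fin.snoc (α := fun _ => V) (f ∘ S) y))]
  refine Multiset.map_congr rfl fun x _ => ?_
  obtain ⟨g, hg, hga, hgx⟩ := hφ x
  have hsub : univ.image (Fin.snoc (α := fun _ => V) S x) ⊆ insert x (univ.image S) := by
    intro y hy
    obtain ⟨j, -, rfl⟩ := mem_image.1 hy
    refine Fin.lastCases ?_ (fun j => ?_) j
    · simp
    · rw [Fin.snoc_castSucc]
      exact mem_insert_of_mem (mem_image_of_mem _ (mem_univ j))
  rw [hχ g _ (h.mono g _ _ hg hsub)]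
  congr 1
  funext j
  refine Fin.lastCases ?_ (fun j => ?_) j
  · simp [hgx]
  · simp only [Function.comp_apply, Fin.snoc_castSucc]
    exact hga _ (mem_image_of_mem _ (mem_univ j))

theorem sameVertexColour_invariant (h : BackForth k G c Good) (f : V → V) (u : V)
    (hf : Good f {u}) : ∀ (j : ℕ), j ≤ k + 1 → ∀ {α : Type} (χ : (Fin j → V) → α),
      (∀ (f : V → V) (S : Fin j → V), Good f (univ.image S) → χ S = χ (f ∘ S)) →
      SameVertexColour j χ u (f u)
  | 0, _, _, _, _ => trivial
  | 1, _, _, χ, hχ => by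
    have : Good f (univ.image (fun _ : Fin 1 => u)) := by
      refine h.mono f _ _ hf ?_
      intro y hy
      obtain ⟨j, -, rfl⟩ := mem_image.1 hy
      simp
    exact hχ f _ this
  | j + 2, hj, _, χ, hχ => by
    show SameVertexColour (j + 1) (lower χ) u (f u)
    exact sameVertexColour_invariant h f u hf (j + 1) (by omega) (lower χ)
      (lower_invariant h (by omega) χ hχ)

theorem sameColour_of_good (h : BackForth k G c Good) (f : V → V) (u : V) (hf : Good f {u}) :
    SameVertexColour k (stableWL k G c) u (f u) :=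
  sameVertexColour_invariant h f u hf k (by omega) _ (wl_invariant h _)

theorem sameColour_of_sameOrbit {u v : V} (huv : SameOrbit G c u v) :
    SameVertexColour k (stableWL k G c) u v := by
  obtain ⟨φ, hφc, rfl⟩ := huv
  have h : BackForth k G c (fun f _ => f = φ) := by
    refine ⟨fun f A B h _ => h, ?_, ?_, ?_, ?_⟩
    · rintro f A rfl x - y -
      exact φ.injective.eq_iff
    · rintro f A rfl x - y -
      exact φ.map_adj_iff
    · rintro f A rfl x -
      exact hφc x
    · rintro f A rfl -
      exact ⟨φ.toEquiv, fun x => ⟨φ, rfl, fun _ _ => rfl, rfl⟩⟩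
  exact sameColour_of_good h φ u rfl

omit [DecidableEq V] in
theorem exists_tuples_of_sameVertexColour (u v : V) : ∀ (j : ℕ) {α : Type}
    (χ : (Fin (j + 1) → V) → α), SameVertexColour (j + 1) χ u v →
      ∃ S S' : Fin (j + 1) → V, χ S = χ S' ∧ S 0 = u ∧ S' 0 = v
  | 0, _, χ, h => ⟨fun _ => u, fun _ => v, h, rfl, rfl⟩
  | j + 1, _, χ, h => by
    obtain ⟨S, S', hSS, hS, hS'⟩ := exists_tuples_of_sameVertexColour u v j (lower χ) h
    have hmem : χ (Fin.snoc (α := fun _ => V) S u) ∈ lower χ S' := by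
      rw [← hSS]
      exact Multiset.mem_map_of_mem _ (Finset.mem_univ_val u)
    obtain ⟨y, -, hy⟩ := Multiset.mem_map.1 hmem
    refine ⟨Fin.snoc (α := fun _ => V) S u, Fin.snoc (α := fun _ => V) S' y, hy.symm, ?_, ?_⟩
    · rw [← Fin.castSucc_zero, Fin.snoc_castSucc, hS]
    · rw [← Fin.castSucc_zero, Fin.snoc_castSucc, hS']

omit [DecidableEq V] in
theorem wl_pred (t : ℕ) (S S' : Fin k → V) (h : wl k G c (t + 1) S = wl k G c (t + 1) S') :
    wl k G c t S = wl k G c t S' := congrArg Prod.fst h

omit [DecidableEq V] in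
theorem wl_zero_of (t : ℕ) (S S' : Fin k → V) (h : wl k G c t S = wl k G c t S') :
    wl k G c 0 S = wl k G c 0 S' := by
  induction t with
  | zero => exact h
  | succ t ih => exact ih (wl_pred t S S' h)

omit [DecidableEq V] in
theorem exists_stableRound : ∃ t, IsStableRound k G c t := by
  classical
  let P : ℕ → Finset ((Fin k → V) × (Fin k → V)) := fun t =>
    univ.filter fun p => wl k G c t p.1 = wl k G c t p.2
  have hP : ∀ t, P (t + 1) ⊆ P t := by
    intro t p hp
    simp only [P, mem_filter, mem_univ, true_and] at hp ⊢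
    exact wl_pred t _ _ hp
  obtain ⟨t, ht⟩ : ∃ t, ∀ s, (P t).card ≤ (P s).card :=
    ⟨Function.argmin (fun t => (P t).card), fun s => Function.argmin_le (fun t => (P t).card) s⟩
  refine ⟨t, fun S S' hS => ?_⟩
  have heq : P (t + 1) = P t := Finset.eq_of_subset_of_card_le (hP t) (ht _)
  have : (S, S') ∈ P t := by simp only [P, mem_filter, mem_univ, true_and]; exact hS
  rw [← heq] at this
  simpa only [P, mem_filter, mem_univ, true_and] using this

omit [DecidableEq V] in
theorem isStableRound_stableRound : IsStableRound k G c (stableRound k G c) :=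
  Nat.sInf_mem (s := {t : ℕ | IsStableRound k G c t}) exists_stableRound

omit [DecidableEq V] in
theorem exists_equiv_of_map_eq {α : Type} (F F' : V → α)
    (h : Multiset.map F univ.val = Multiset.map F' univ.val) :
    ∃ φ : V ≃ V, ∀ x, F' (φ x) = F x := by
  classical
  have hc : ∀ a, Fintype.card {x // F x = a} = Fintype.card {x // F' x = a} := by
    intro a
    have h1 := congrArg (Multiset.count a) h
    rw [Multiset.count_map, Multiset.count_map] at h1
    rw [Fintype.card_subtype, Fintype.card_subtype]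
    have e1 : (univ.filter fun x => F x = a).card =
        (Multiset.filter (fun x => a = F x) univ.val).card := by
      rw [Finset.card, Finset.filter_val]
      congr 1
      exact Multiset.filter_congr fun x _ => eq_comm
    have e2 : (univ.filter fun x => F' x = a).card =
        (Multiset.filter (fun x => a = F' x) univ.val).card := by
      rw [Finset.card, Finset.filter_val]
      congr 1
      exact Multiset.filter_congr fun x _ => eq_comm
    rw [e1, e2, h1]
  exact ⟨Equiv.ofFiberEquiv fun a => Fintype.equivOfCardEq (hc a),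
    fun x => Equiv.ofFiberEquiv_map _ x⟩

/-- A relation that preserves neighbourhoods bijectively. -/
def Bisim (G : SimpleGraph V) (R : V → V → Prop) : Prop :=
  ∀ u v, R u v → ∃ φ : V ≃ V, ∀ x, (G.Adj v (φ x) ↔ G.Adj u x) ∧ R x (φ x)

omit [Fintype V] [DecidableEq V] in
theorem Bisim.ncard_eq {R : V → V → Prop} (h : Bisim G R) {u v : V} (huv : R u v) :
    (G.neighborSet u).ncard = (G.neighborSet v).ncard := by
  obtain ⟨φ, hφ⟩ := h u v huv
  have : G.neighborSet v = φ '' G.neighborSet u := by
    ext y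
    obtain ⟨x, rfl⟩ := φ.surjective y
    rw [φ.injective.mem_set_image]
    exact (hφ x).1
  rw [this, Set.ncard_image_of_injective _ φ.injective]

omit [Fintype V] [DecidableEq V] in
theorem bisim_iso (φ : G ≃g G) : Bisim G (fun u v => φ u = v) := by
  rintro u v rfl
  exact ⟨φ.toEquiv, fun x => ⟨φ.map_adj_iff, rfl⟩⟩

omit [DecidableEq V] in
theorem bisim_stable (hk : 2 ≤ k) : Bisim G (fun u v => ∃ (S S' : Fin k → V) (i : Fin k),
    stableWL k G c S = stableWL k G c S' ∧ S i = u ∧ S' i = v) := by
  rintro u v ⟨S, S', i, hS, rfl, rfl⟩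
  have h1 := isStableRound_stableRound S S' hS
  have h2 := congrArg Prod.snd h1
  obtain ⟨φ, hφ⟩ := exists_equiv_of_map_eq _ _ h2
  have : Nontrivial (Fin k) := Fin.nontrivial_iff_two_le.2 hk
  obtain ⟨j, hj⟩ := exists_ne i
  refine ⟨φ, fun x => ?_⟩
  have h3 := congrFun (hφ x) j
  refine ⟨?_, Function.update S j x, Function.update S' j (φ x), j, h3.symm, by simp, by simp⟩
  have h4 := wl_zero_of _ _ _ h3
  have h5 := congrFun (congrFun (congrArg (fun p => p.2.1) h4) i) j
  simp only [wl, Function.update_of_ne hj.symm, Function.update_self] at h5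
  rw [h5]

omit [DecidableEq V] in
theorem exists_bisim_of_sameColour (hk : 2 ≤ k) {u v : V}
    (h : SameVertexColour k (stableWL k G c) u v) : ∃ R, Bisim G R ∧ R u v := by
  refine ⟨_, bisim_stable (c := c) hk, ?_⟩
  obtain ⟨j, rfl⟩ : ∃ j, k = j + 1 := ⟨k - 1, by omega⟩
  obtain ⟨S, S', h1, h2, h3⟩ := exists_tuples_of_sameVertexColour u v j _ h
  exact ⟨S, S', 0, h1, h2, h3⟩

end

end Pool.Agent.Lib.MP_493565_co
end

-- part Pool.Agent.Lib.MP_493565_co.Graph
section

set_option autoImplicit false

namespace Pool.Agent.Lib.MP_493565_co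

open Finset

/-- base vertices -/
abbrev B (n : ℕ) := Fin (n + 3)
/-- gadget vertices -/
abbrev X (n : ℕ) := B n × (B n → ZMod 2)
/-- classes of gadget vertices -/
abbrev K (n : ℕ) := B n × ZMod 2

def par {n : ℕ} (w : B n) (f : B n → ZMod 2) : ZMod 2 := ∑ w' ∈ univ.erase w, f w'

def col {n : ℕ} (x : X n) : K n := (x.1, if x.1 = 0 ∨ x.1 = 1 then 0 else par x.1 x.2)

noncomputable def NP (n : ℕ) (κ : K n) : ℕ :=
  (((Fintype.equivFin (K n)) κ : ℕ) + 1) * (Fintype.card (X n) + Fintype.card (K n) + 2)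

abbrev P (n : ℕ) := Σ κ : K n, Fin (NP n κ)

abbrev W (n : ℕ) := X n ⊕ (K n ⊕ P n)

def adj {n : ℕ} : W n → W n → Prop
  | .inl x, .inl y => x.1 ≠ y.1 ∧ x.2 y.1 = y.2 x.1
  | .inl x, .inr (.inl κ) => col x = κ
  | .inr (.inl κ), .inl x => col x = κ
  | .inr (.inl κ), .inr (.inr p) => p.1 = κ
  | .inr (.inr p), .inr (.inl κ) => p.1 = κ
  | .inl _, .inr (.inr _) => False
  | .inr (.inr _), .inl _ => False
  | .inr (.inl κ), .inr (.inl κ') => κ ≠ κ'
  | .inr (.inr _), .inr (.inr _) => False

def GG (n : ℕ) : SimpleGraph (W n) where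
  Adj := adj
  symm := ⟨by
    rintro (x | κ | p) (y | κ' | p') h <;> simp only [adj] at h ⊢
    · exact ⟨h.1.symm, h.2.symm⟩
    all_goals first | exact h | exact Ne.symm h⟩
  loopless := ⟨by
    rintro (x | κ | p) h <;> simp only [adj] at h
    · exact h.1 rfl
    · exact h rfl⟩

variable {n : ℕ}

@[simp] theorem GG_adj (a b : W n) : (GG n).Adj a b ↔ adj a b := Iff.rfl

theorem deg_pend (p : P n) : ((GG n).neighborSet (.inr (.inr p))).ncard = 1 := by
  have : (GG n).neighborSet (.inr (.inr p)) = {.inr (.inl p.1)} := by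
    ext (y | κ | q) <;> simp [adj, eq_comm]
  rw [this, Set.ncard_singleton]

theorem deg_gadget_le (x : X n) :
    ((GG n).neighborSet (.inl x)).ncard ≤ Fintype.card (X n) + 1 := by
  have : (GG n).neighborSet (.inl x) ⊆ insert (.inr (.inl (col x))) (Set.range Sum.inl) := by
    rintro (y | κ | q) h
    · exact Set.mem_insert_of_mem _ ⟨y, rfl⟩
    · simp only [SimpleGraph.mem_neighborSet, GG_adj, adj] at h
      subst h; exact Set.mem_insert _ _
    · simp [adj] at h
  refine (Set.ncard_le_ncard this).trans ((Set.ncard_insert_le _ _).trans ?_)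
  rw [Set.ncard_range_of_injective Sum.inl_injective, Nat.card_eq_fintype_card]

theorem two_le_deg_gadget (x : X n) : 2 ≤ ((GG n).neighborSet (.inl x)).ncard := by
  obtain ⟨w, hw⟩ := exists_ne x.1
  have : ({.inr (.inl (col x)), .inl (w, fun _ => x.2 w)} : Set (W n)) ⊆
      (GG n).neighborSet (.inl x) := by
    rintro y (rfl | rfl)
    · simp [adj]
    · simp [adj, hw.symm]
  refine le_trans ?_ (Set.ncard_le_ncard this)
  rw [Set.ncard_pair (by simp)]

theorem deg_hub_ge (κ : K n) : NP n κ ≤ ((GG n).neighborSet (.inr (.inl κ))).ncard := by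
  have hinj : Function.Injective
      (fun i : Fin (NP n κ) => (Sum.inr (Sum.inr ⟨κ, i⟩) : W n)) := by
    intro i j h
    simpa using h
  have : Set.range (fun i : Fin (NP n κ) => (Sum.inr (Sum.inr ⟨κ, i⟩) : W n)) ⊆
      (GG n).neighborSet (.inr (.inl κ)) := by
    rintro _ ⟨i, rfl⟩
    simp [adj]
  refine le_trans ?_ (Set.ncard_le_ncard this)
  rw [Set.ncard_range_of_injective hinj]
  simp

theorem deg_hub_le (κ : K n) :
    ((GG n).neighborSet (.inr (.inl κ))).ncard ≤
      NP n κ + (Fintype.card (X n) + Fintype.card (K n)) := by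
  have hinj : Function.Injective
      (fun i : Fin (NP n κ) => (Sum.inr (Sum.inr ⟨κ, i⟩) : W n)) := by
    intro i j h
    simpa using h
  have : (GG n).neighborSet (.inr (.inl κ)) ⊆
      Set.range (fun i : Fin (NP n κ) => (Sum.inr (Sum.inr ⟨κ, i⟩) : W n)) ∪
        (Set.range Sum.inl ∪ Set.range fun κ' : K n => (Sum.inr (Sum.inl κ') : W n)) := by
    rintro (y | κ' | ⟨κ', i⟩) h
    · exact Or.inr (Or.inl ⟨y, rfl⟩)
    · exact Or.inr (Or.inr ⟨κ', rfl⟩)
    · simp only [SimpleGraph.mem_neighborSet, GG_adj, adj] at h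
      subst h
      exact Or.inl ⟨i, rfl⟩
  refine (Set.ncard_le_ncard this).trans ((Set.ncard_union_le _ _).trans
    ((Nat.add_le_add_left (Set.ncard_union_le _ _) _).trans ?_))
  rw [Set.ncard_range_of_injective hinj, Set.ncard_range_of_injective Sum.inl_injective,
    Set.ncard_range_of_injective fun a b h => by simpa using h]
  simp

theorem NP_ge (κ : K n) : Fintype.card (X n) + Fintype.card (K n) + 2 ≤ NP n κ := by
  unfold NP
  nlinarith [Nat.zero_le (((Fintype.equivFin (K n)) κ : ℕ) *
    (Fintype.card (X n) + Fintype.card (K n) + 2))]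

theorem hub_eq {R : W n → W n → Prop} (hR : Bisim (GG n) R) {κ : K n} {b : W n}
    (h : R (.inr (.inl κ)) b) : b = .inr (.inl κ) := by
  have hd := hR.ncard_eq h
  have h1 := deg_hub_ge κ
  have h2 := deg_hub_le κ
  have h3 := NP_ge κ
  rcases b with y | κ' | q
  · have := deg_gadget_le y
    omega
  · have h4 := deg_hub_ge κ'
    have h5 := deg_hub_le κ'
    have : κ' = κ := by
      apply (Fintype.equivFin (K n)).injective
      apply Fin.ext
      unfold NP at h1 h2 h4 h5
      generalize ((Fintype.equivFin (K n)) κ : ℕ) = a at *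
      generalize ((Fintype.equivFin (K n)) κ' : ℕ) = b at *
      generalize Fintype.card (X n) + Fintype.card (K n) = c at *
      rcases lt_trichotomy a b with hab | hab | hab
      · have : (a + 1 + 1) * (c + 2) ≤ (b + 1) * (c + 2) := Nat.mul_le_mul_right _ (by omega)
        nlinarith
      · exact hab.symm
      · have : (b + 1 + 1) * (c + 2) ≤ (a + 1) * (c + 2) := Nat.mul_le_mul_right _ (by omega)
        nlinarith
    rw [this]
  · have := deg_pend q
    omega

theorem gadget_eq {R : W n → W n → Prop} (hR : Bisim (GG n) R) {x : X n} {b : W n}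
    (h : R (.inl x) b) : ∃ y, b = .inl y ∧ col y = col x := by
  have hd := hR.ncard_eq h
  obtain ⟨φ, hφ⟩ := hR _ _ h
  obtain ⟨h1, h2⟩ := hφ (.inr (.inl (col x)))
  rw [hub_eq hR h2] at h1
  have h3 : (GG n).Adj b (.inr (.inl (col x))) := h1.2 (by simp [adj])
  rcases b with y | κ' | q
  · exact ⟨y, rfl, h3⟩
  · have := deg_gadget_le x
    have := deg_hub_ge κ'
    have := NP_ge κ'
    omega
  · have := deg_pend q
    have := two_le_deg_gadget x
    omega

theorem pend_eq {R : W n → W n → Prop} (hR : Bisim (GG n) R) {p : P n} {b : W n}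
    (h : R (.inr (.inr p)) b) : ∃ q : P n, b = .inr (.inr q) ∧ q.1 = p.1 := by
  have hd := hR.ncard_eq h
  obtain ⟨φ, hφ⟩ := hR _ _ h
  obtain ⟨h1, h2⟩ := hφ (.inr (.inl p.1))
  rw [hub_eq hR h2] at h1
  have h3 : (GG n).Adj b (.inr (.inl p.1)) := h1.2 (by simp [adj])
  rcases b with y | κ' | q
  · have := deg_pend p
    have := two_le_deg_gadget y
    omega
  · have := deg_pend p
    have := deg_hub_ge κ'
    have := NP_ge κ'
    omega
  · exact ⟨q, rfl, h3⟩

/-- the twist by a matrix over `ZMod 2` -/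
def lift (γ : B n → B n → ZMod 2) : W n → W n
  | .inl x => .inl (x.1, x.2 + γ x.1)
  | .inr y => .inr y

theorem lift_lift (γ : B n → B n → ZMod 2) (a : W n) : lift γ (lift γ a) = a := by
  rcases a with x | y
  · simp only [lift]
    congr 2
    funext w
    simp [add_assoc, CharTwo.add_self_eq_zero]
  · rfl

def liftEquiv (γ : B n → B n → ZMod 2) : W n ≃ W n where
  toFun := lift γ
  invFun := lift γ
  left_inv := lift_lift γ
  right_inv := lift_lift γ

theorem par_add (w : B n) (f g : B n → ZMod 2) : par w (f + g) = par w f + par w g := by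
  simp [par, Finset.sum_add_distrib]

theorem col_lift (γ : B n → B n → ZMod 2) (x : X n)
    (h : ¬ (x.1 = 0 ∨ x.1 = 1) → par x.1 (γ x.1) = 0) : col (x.1, x.2 + γ x.1) = col x := by
  unfold col
  by_cases hx : x.1 = 0 ∨ x.1 = 1
  · simp [hx]
  · simp [hx, par_add, h hx]

theorem adj_lift (γ : B n → B n → ZMod 2) (hγ : ∀ a b, γ a b = γ b a) (a b : W n)
    (ha : ∀ x, a = .inl x → ¬ (x.1 = 0 ∨ x.1 = 1) → par x.1 (γ x.1) = 0)
    (hb : ∀ x, b = .inl x → ¬ (x.1 = 0 ∨ x.1 = 1) → par x.1 (γ x.1) = 0) :
    adj (lift γ a) (lift γ b) ↔ adj a b := by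
  rcases a with x | κ | p <;> rcases b with y | κ' | q <;> simp only [lift, adj]
  · simp [hγ x.1 y.1]
  · rw [col_lift γ x (ha x rfl)]
  · rw [col_lift γ y (hb y rfl)]

theorem sameOrbit_gadget (x y : X n) (h : col y = col x) :
    SameOrbit (GG n) (fun _ => ()) (.inl x) (.inl y) := by
  obtain ⟨w, f⟩ := x
  obtain ⟨w', f'⟩ := y
  have hw : w' = w := congrArg Prod.fst h
  subst hw
  have hpar : ¬ (w' = 0 ∨ w' = 1) → par w' (f + f') = 0 := by
    intro hw
    have := congrArg Prod.snd h
    simp only [col, hw, if_false] at this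
    rw [par_add, this, CharTwo.add_self_eq_zero]
  obtain ⟨s, hs, hsw⟩ : ∃ s : B n, (s = 0 ∨ s = 1) ∧ s ≠ w' := by
    by_cases h0 : w' = 0
    · exact ⟨1, Or.inr rfl, by rw [h0]; exact one_ne_zero⟩
    · exact ⟨0, Or.inl rfl, Ne.symm h0⟩
  let d := f + f'
  let γ : B n → B n → ZMod 2 := fun a b =>
    if a = w' then d b else if b = w' then d a else
      if a = s then (if b = s then 0 else d b) else if b = s then d a else 0
  have hγ : ∀ a b, γ a b = γ b a := by
    intro a b
    simp only [γ]
    split_ifs <;> simp_all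
  have hγw : γ w' = d := by funext b; simp [γ]
  have hγp : ∀ a : B n, ¬ (a = 0 ∨ a = 1) → par a (γ a) = 0 := by
    intro a ha
    by_cases haw : a = w'
    · rw [haw, hγw]; exact hpar (haw ▸ ha)
    · have has : a ≠ s := by rintro rfl; exact ha hs
      have : γ a = Pi.single w' (d a) + Pi.single s (d a) := by
        funext b
        simp only [γ, haw, has, if_false, Pi.add_apply, Pi.single_apply]
        split_ifs <;> simp_all
      rw [this, par_add]
      simp only [par]
      rw [Finset.sum_pi_single', Finset.sum_pi_single']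
      simp [Ne.symm haw, Ne.symm has, CharTwo.add_self_eq_zero]
  refine ⟨⟨liftEquiv γ, ?_⟩, fun _ => rfl, ?_⟩
  · intro a b
    exact adj_lift γ hγ a b (fun x _ => hγp x.1) (fun x _ => hγp x.1)
  · show lift γ (.inl (w', f)) = _
    simp only [lift, hγw, d]
    congr 2
    funext b
    simp [← add_assoc, CharTwo.add_self_eq_zero]

theorem sameOrbit_pend (p q : P n) (h : q.1 = p.1) :
    SameOrbit (GG n) (fun _ => ()) (.inr (.inr p)) (.inr (.inr q)) := by
  classical
  have hσ : ∀ r, (Equiv.swap p q r).1 = r.1 := by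
    intro r
    rw [Equiv.swap_apply_def]
    split_ifs with h1 h2
    · rw [h1, h]
    · rw [h2, h]
    · rfl
  have hpq : Equiv.swap p q p = q := Equiv.swap_apply_left p q
  generalize Equiv.swap p q = σ at hσ hpq
  refine ⟨⟨Equiv.sumCongr (Equiv.refl _) (Equiv.sumCongr (Equiv.refl _) σ), ?_⟩,
    fun _ => rfl, ?_⟩
  · rintro (x | κ | r) (y | κ' | r') <;> simp [adj, hσ]
  · simp [hpq]

theorem refines_GG {k : ℕ} (hk : 2 ≤ k) : RefinesToOrbits k (GG n) (fun _ => ()) := by
  classical
  intro a b
  refine ⟨fun h => ?_, sameColour_of_sameOrbit⟩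
  obtain ⟨R, hR, hab⟩ := exists_bisim_of_sameColour hk h
  rcases a with x | κ | p
  · obtain ⟨y, rfl, hy⟩ := gadget_eq hR hab
    exact sameOrbit_gadget x y hy
  · rw [hub_eq hR hab]
    exact ⟨RelIso.refl _, fun _ => rfl, rfl⟩
  · obtain ⟨q, rfl, hq⟩ := pend_eq hR hab
    exact sameOrbit_pend p q hq

end Pool.Agent.Lib.MP_493565_co
end

-- part Pool.Agent.Lib.MP_493565_co.Indiv
section

set_option autoImplicit false

namespace Pool.Agent.Lib.MP_493565_co

open Finset

variable {n : ℕ}

def two : B n := ⟨2, by omega⟩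

theorem two_ne_zero' : (two : B n) ≠ 0 := by simp [two, Fin.ext_iff]
theorem two_ne_one' : (two : B n) ≠ 1 := by simp [two, Fin.ext_iff]

def v0 : W n := .inl (0, 0)

/-- the symmetric matrix of a single base edge -/
def edgeMat (a b : B n) (z : ZMod 2) : B n → B n → ZMod 2 :=
  fun i j => if (i = a ∧ j = b) ∨ (i = b ∧ j = a) then z else 0

theorem edgeMat_symm (a b : B n) (z : ZMod 2) (i j : B n) :
    edgeMat a b z i j = edgeMat a b z j i := by
  unfold edgeMat
  congr 1
  apply propext
  tauto

theorem edgeMat_of_ne (a b : B n) (z : ZMod 2) (i : B n) (ha : i ≠ a) (hb : i ≠ b) :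
    edgeMat a b z i = 0 := by
  funext j
  simp [edgeMat, ha, hb]

theorem edgeMat_left (a b : B n) (hab : a ≠ b) (z : ZMod 2) :
    edgeMat a b z a = Pi.single b z := by
  funext j
  simp [edgeMat, hab, Pi.single_apply]

theorem par_single (a b : B n) (hab : a ≠ b) (z : ZMod 2) : par a (Pi.single b z) = z := by
  unfold par
  rw [Finset.sum_pi_single']
  simp [hab.symm]

def GoodI (f : W n → W n) (A : Finset (W n)) : Prop :=
  ∃ γ : B n → B n → ZMod 2, (∀ a b, γ a b = γ b a) ∧ γ 0 = 0 ∧
    (∀ x : X n, .inl x ∈ A → ¬ (x.1 = 0 ∨ x.1 = 1) → par x.1 (γ x.1) = 0) ∧ f = lift γ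

theorem lift_eq_v0 (γ : B n → B n → ZMod 2) (h0 : γ 0 = 0) (a : W n) :
    lift γ a = v0 ↔ a = v0 := by
  have : lift γ (v0 : W n) = v0 := by simp [lift, v0, h0]
  constructor
  · intro h
    rw [← lift_lift γ a, h, this]
  · rintro rfl
    exact this

/-- base vertices met by a set of vertices -/
def bases (A : Finset (W n)) : Finset (B n) :=
  A.biUnion fun a => match a with
    | .inl x => {x.1}
    | .inr _ => ∅

theorem card_bases_le (A : Finset (W n)) : (bases A).card ≤ A.card := by
  unfold bases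
  refine Finset.card_biUnion_le.trans ?_
  rw [Finset.card_eq_sum_ones A]
  refine Finset.sum_le_sum fun a _ => ?_
  rcases a with x | y <;> simp

theorem mem_bases {A : Finset (W n)} {x : X n} (h : .inl x ∈ A) : x.1 ∈ bases A :=
  Finset.mem_biUnion.2 ⟨_, h, by simp⟩

theorem exists_of_mem_bases {A : Finset (W n)} {w : B n} (h : w ∈ bases A) :
    ∃ x : X n, .inl x ∈ A ∧ x.1 = w := by
  obtain ⟨a, ha, hw⟩ := Finset.mem_biUnion.1 h
  rcases a with x | y
  · exact ⟨x, ha, (Finset.mem_singleton.1 hw).symm⟩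
  · simp at hw

theorem backForth_indiv [DecidableEq (W n)] :
    BackForth n (GG n) (individualise (fun _ => ()) v0) GoodI := by
  refine ⟨?_, ?_, ?_, ?_, ?_⟩
  · rintro f A A' ⟨γ, h1, h2, h3, h4⟩ hA
    exact ⟨γ, h1, h2, fun x hx => h3 x (hA hx), h4⟩
  · rintro f A ⟨γ, h1, h2, h3, rfl⟩ x - y -
    exact (liftEquiv γ).injective.eq_iff
  · rintro f A ⟨γ, h1, h2, h3, rfl⟩ x hx y hy
    exact adj_lift γ h1 x y (fun z hz => h3 z (hz ▸ hx)) (fun z hz => h3 z (hz ▸ hy))
  · rintro f A ⟨γ, h1, h2, h3, rfl⟩ x -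
    simp only [individualise, lift_eq_v0 γ h2]
  · rintro f A ⟨γ, h1, h2, h3, rfl⟩ hA
    have key : ∀ w : B n, ∃ δ : B n → B n → ZMod 2, (∀ a b, δ a b = δ b a) ∧ δ 0 = 0 ∧
        (∀ a ∈ bases A, δ a = γ a) ∧ (¬ (w = 0 ∨ w = 1) → par w (δ w) = 0) := by
      intro w
      by_cases hw : w ∈ bases A ∨ w = 0 ∨ w = 1
      · refine ⟨γ, h1, h2, fun _ _ => rfl, fun hw' => ?_⟩
        obtain ⟨x, hx, rfl⟩ := exists_of_mem_bases (hw.resolve_right hw')
        exact h3 x hx hw'
      · obtain ⟨w', hw'⟩ : ∃ w', w' ∉ insert w (insert 0 (bases A)) := by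
          by_contra hcon
          push Not at hcon
          have h5 : (univ : Finset (B n)).card ≤ (insert w (insert 0 (bases A))).card :=
            Finset.card_le_card fun a _ => hcon a
          have h6 := Finset.card_insert_le w (insert 0 (bases A))
          have h7 := Finset.card_insert_le 0 (bases A)
          have h8 := card_bases_le A
          simp only [Finset.card_univ, Fintype.card_fin] at h5
          omega
        simp only [Finset.mem_insert, not_or] at hw' hw
        refine ⟨γ + edgeMat w w' (par w (γ w)), ?_, ?_, ?_, fun _ => ?_⟩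
        · intro a b
          simp only [Pi.add_apply, h1 a b, edgeMat_symm w w' _ a b]
        · rw [Pi.add_apply, h2, edgeMat_of_ne _ _ _ _ (Ne.symm hw.2.1) (Ne.symm hw'.2.1), add_zero]
        · intro a ha
          rw [Pi.add_apply, edgeMat_of_ne, add_zero]
          · rintro rfl; exact hw.1 ha
          · rintro rfl; exact hw'.2.2 ha
        · rw [Pi.add_apply, edgeMat_left _ _ (Ne.symm hw'.1), par_add,
            par_single _ _ (Ne.symm hw'.1), CharTwo.add_self_eq_zero]
    choose δ hδ1 hδ2 hδ3 hδ4 using key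
    refine ⟨liftEquiv fun w => δ w w, ?_⟩
    rintro (x | y)
    · refine ⟨lift (δ x.1), ⟨δ x.1, hδ1 _, hδ2 _, ?_, rfl⟩, ?_, rfl⟩
      · intro z hz hz'
        rcases Finset.mem_insert.1 hz with h | h
        · obtain rfl : z = x := Sum.inl_injective h
          exact hδ4 _ hz'
        · rw [hδ3 _ _ (mem_bases h)]
          exact h3 z h hz'
      · rintro (z | z) hz
        · simp only [lift, hδ3 _ _ (mem_bases hz)]
        · rfl
    · refine ⟨lift γ, ⟨γ, h1, h2, ?_, rfl⟩, fun _ _ => rfl, rfl⟩
      intro z hz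
      rcases Finset.mem_insert.1 hz with h | h
      · exact absurd h (by simp)
      · exact h3 z h

theorem sameColour_u :
    SameVertexColour n (stableWL n (GG n) (individualise (fun _ => ()) v0))
      (.inl (1, 0)) (.inl (1, Pi.single two 1)) := by
  classical
  have hg : GoodI (lift (edgeMat (1 : B n) two 1)) {(.inl (1, 0) : W n)} := by
    refine ⟨_, edgeMat_symm _ _ _, edgeMat_of_ne _ _ _ _ zero_ne_one two_ne_zero'.symm, ?_, rfl⟩
    intro x hx hx'
    obtain rfl : x = (1, 0) := by simpa using hx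
    simp at hx'
  have := sameColour_of_good backForth_indiv _ _ hg
  simpa only [lift, edgeMat_left _ _ two_ne_one'.symm, zero_add] using this

theorem sum_par_symm (g : B n → B n → ZMod 2) (hg : ∀ a b, a ≠ b → g a b = g b a) :
    ∑ w, par w (g w) = 0 := by
  have : ∑ w, par w (g w) = ∑ p ∈ (univ : Finset (B n)).offDiag, g p.1 p.2 := by
    unfold par
    rw [Finset.sum_sigma']
    refine Finset.sum_bij' (fun p _ => (p.1, p.2)) (fun p _ => ⟨p.1, p.2⟩) ?_ ?_ ?_ ?_ ?_
    · intro p hp
      simp only [Finset.mem_sigma, Finset.mem_erase] at hp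
      simp [hp.2.1.symm]
    · intro p hp
      simp only [Finset.mem_offDiag] at hp
      simp [hp.2.2.symm]
    · intro p _; rfl
    · intro p _; rfl
    · intro p _; rfl
  rw [this]
  refine Finset.sum_involution (fun p _ => p.swap) ?_ ?_ ?_ ?_
  · intro p hp
    simp only [Finset.mem_offDiag] at hp
    simp only [Prod.fst_swap, Prod.snd_swap]
    rw [hg _ _ hp.2.2, CharTwo.add_self_eq_zero]
  · intro p hp _ h
    simp only [Finset.mem_offDiag] at hp
    exact hp.2.2 (congrArg Prod.fst h).symm
  · intro p hp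
    simp only [Finset.mem_offDiag] at hp ⊢
    simp [hp.2.2.symm]
  · intro p _; rfl

theorem not_sameOrbit_u :
    ¬ SameOrbit (GG n) (individualise (fun _ => ()) v0)
      (.inl (1, 0)) (.inl (1, Pi.single two 1)) := by
  rintro ⟨φ, hc, hu⟩
  have hv : φ v0 = v0 := by
    have := hc v0
    simp only [individualise, if_true] at this
    by_contra h
    simp [h] at this
  have h1 : ∀ w : B n, ∃ y : X n, φ (.inl (w, 0)) = .inl y ∧ col y = col (w, 0) :=
    fun w => gadget_eq (bisim_iso φ) rfl
  choose y hy1 hy2 using h1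
  have hb : ∀ w, (y w).1 = w := fun w => congrArg Prod.fst (hy2 w)
  have hs : ∀ a b, a ≠ b → (y a).2 b = (y b).2 a := by
    intro a b hab
    have : (GG n).Adj (φ (.inl (a, 0))) (φ (.inl (b, 0))) := φ.map_adj_iff.2 (by simp [adj, hab])
    rw [hy1, hy1] at this
    simpa [adj, hb, hab] using this
  have hsum := sum_par_symm (fun w => (y w).2) hs
  have h0 : (y 0).2 = 0 := by
    have := hy1 0
    rw [show (Sum.inl (0, 0) : W n) = v0 from rfl, hv] at this
    have h2 : ((0, 0) : X n) = y 0 := Sum.inl_injective this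
    rw [← h2]
  have h1 : (y 1).2 = Pi.single two 1 := by
    have := hy1 1
    rw [hu] at this
    have h2 : ((1, Pi.single two 1) : X n) = y 1 := Sum.inl_injective this
    rw [← h2]
  rw [Finset.sum_eq_single (1 : B n)] at hsum
  · rw [h1, par_single _ _ two_ne_one'.symm] at hsum
    exact one_ne_zero hsum
  · intro b _ hb1
    by_cases hb0 : b = 0
    · rw [hb0, h0]; simp [par]
    · have := congrArg Prod.snd (hy2 b)
      simpa [col, hb, hb0, hb1, par] using this
  · simp

theorem not_refines_indiv : ¬ RefinesToOrbits n (GG n) (individualise (fun _ => ()) v0) :=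
  fun h => not_sameOrbit_u ((h _ _).1 sameColour_u)

theorem v0_orbit : ∃ w : W n, w ≠ v0 ∧ SameOrbit (GG n) (fun _ => ()) v0 w := by
  refine ⟨.inl (0, Pi.single two 1), ?_, sameOrbit_gadget _ _ (by simp [col])⟩
  intro h
  have h2 : ((0, Pi.single two 1) : X n) = (0, 0) := Sum.inl_injective h
  have := congrFun (congrArg Prod.snd h2) two
  simp at this

theorem GG_connected : (GG n).Connected := by
  have hub : ∀ κ : K n, (GG n).Reachable (.inr (.inl κ)) (.inr (.inl (0, 0))) := by
    intro κ
    by_cases h : κ = (0, 0)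
    · rw [h]
    · exact SimpleGraph.Adj.reachable (by simpa [adj] using h)
  have all : ∀ a : W n, (GG n).Reachable a (.inr (.inl (0, 0))) := by
    rintro (x | κ | p)
    · exact (SimpleGraph.Adj.reachable (by simp [adj])).trans (hub (col x))
    · exact hub κ
    · exact (SimpleGraph.Adj.reachable (by simp [adj])).trans (hub p.1)
  exact ⟨fun a b => (all a).trans (all b).symm⟩

theorem GG_compl_connected : (GG n)ᶜ.Connected := by
  let p : K n → P n := fun κ => ⟨κ, ⟨0, lt_of_lt_of_le (by omega) (NP_ge κ)⟩⟩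
  have hp : ∀ κ, (p κ).1 = κ := fun _ => rfl
  have pend : ∀ q : P n, (GG n)ᶜ.Reachable (.inr (.inr q)) (.inr (.inr (p (0, 0)))) := by
    intro q
    by_cases h : q = p (0, 0)
    · rw [h]
    · exact SimpleGraph.Adj.reachable (by simpa [adj] using h)
  have all : ∀ a : W n, (GG n)ᶜ.Reachable a (.inr (.inr (p (0, 0)))) := by
    rintro (x | κ | q)
    · exact SimpleGraph.Adj.reachable (by simp [adj])
    · obtain ⟨κ', hκ⟩ := exists_ne κ
      exact (SimpleGraph.Adj.reachable (by simpa [adj, hp] using hκ)).trans (pend (p κ'))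
    · exact pend q
  exact ⟨fun a b => (all a).trans (all b).symm⟩

end Pool.Agent.Lib.MP_493565_co
end
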